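import Mathlib
import Pool.Agent.helper55.GL.Spec

/-! GLO: the gluing criterion for `Q1`. -/

set_option autoImplicit false

namespace Pool.Agent.GL

open SimpleGraph

theorem GLO_bip {V : Type} (H : SimpleGraph V) (c : V → Bool) (h : Pr H c) : H.IsBipartite := by
  have h1 : H.Colorable (Fintype.card Bool) :=
    (SimpleGraph.Coloring.mk c (fun {a b} hab => h a b hab)).colorable
  simpa using h1

theorem GLO_col {V : Type} (H : SimpleGraph V) (h : H.IsBipartite) : ∃ c : V → Bool, Pr H c := by
  obtain ⟨C⟩ := h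
  refine ⟨fun a => decide (C a = 0), fun a b hab hc => ?_⟩
  have h1 : C a ≠ C b := C.valid hab
  apply h1
  have ha : C a = 0 ∨ C a = 1 := by
    rcases C a with ⟨k, hk⟩
    interval_cases k
    · left; rfl
    · right; rfl
  have hb : C b = 0 ∨ C b = 1 := by
    rcases C b with ⟨k, hk⟩
    interval_cases k
    · left; rfl
    · right; rfl
  rcases ha with ha | ha <;> rcases hb with hb | hb <;> simp_all

theorem GLO_two {V : Type} [Fintype V] (H : SimpleGraph V) (h : ¬ 3 ≤ Fintype.card V) :
    ∀ e ∈ H.edgeSet, ∀ e' ∈ H.edgeSet, e = e' := by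
  classical
  have key : ∀ a b x : V, a ≠ b → x = a ∨ x = b := by
    intro a b x hab
    by_contra hx
    push Not at hx
    apply h
    have h3 : ({a, b, x} : Finset V).card = 3 := by
      rw [Finset.card_eq_three]
      exact ⟨a, b, x, hab, hx.1.symm, hx.2.symm, rfl⟩
    rw [← h3]
    exact Finset.card_le_univ _
  intro e
  induction e using Sym2.ind with
  | _ a b =>
    intro he e'
    induction e' using Sym2.ind with
    | _ a' b' =>
      intro he'
      rw [SimpleGraph.mem_edgeSet] at he he'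
      have hab := he.ne
      have hab' := he'.ne
      rcases key a b a' hab with h1 | h1 <;> rcases key a b b' hab with h2 | h2
      · exact absurd (h1.trans h2.symm) hab'
      · rw [h1, h2]
      · rw [h1, h2, Sym2.eq_swap]
      · exact absurd (h1.trans h2.symm) hab'

theorem GLO (hFRO : FRO_stmt) (hATM : ATM_stmt) (hACN : ACN_stmt) (hTRV : TRV_stmt)
    (hLOC : LOC_stmt) (hCUT : CUT_stmt) (hJBD : JBD_stmt) (hSML : SML_stmt) (hCON : CON_stmt)
    (hJPR : JPR_stmt) : GLO_stmt := by
  classical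
  unfold FRO_stmt at hFRO
  unfold GLO_stmt
  refine hFRO.trans ?_
  constructor
  · intro hQ V W _ _ H K hH hK bH bK cV cW v w
    obtain ⟨c, hc⟩ := GLO_col H bH
    obtain ⟨d0, hd0⟩ := GLO_col K bK
    obtain ⟨d, hd, hvw⟩ : ∃ d : W → Bool, Pr K d ∧ c v ≠ d w := by
      by_cases h : c v = d0 w
      · refine ⟨fun x => !d0 x, fun a b hab hh => hd0 a b hab ?_, ?_⟩
        · simpa using hh
        · simp [h]
      · exact ⟨d0, hd0, h⟩
    obtain ⟨hiH, h2H⟩ := (hCON V H hH).1 cV
    obtain ⟨hiK, -⟩ := (hCON W K hK).1 cW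
    obtain ⟨hp, -, -, -, hJ1, hJ2, -⟩ := hJPR V W H K v w
    have hiJ : ∀ a, ∃ b, (Join H K v w).Adj a b := by
      rintro (a | a)
      · obtain ⟨b, hb⟩ := hiH a
        exact ⟨Sum.inl b, hJ1 a b hb⟩
      · obtain ⟨b, hb⟩ := hiK a
        exact ⟨Sum.inr b, hJ2 a b hb⟩
    have hcut := hCUT (V ⊕ W) (Join H K v w) (Sum.elim c d) (hp c d hc hd hvw) hiJ
    obtain ⟨C1, hC1⟩ := hJBD V W H K c d v w hc hd hiH hiK hvw
    obtain ⟨C2, N2, hC2⟩ := hQ V H c hc
    obtain ⟨C3, N3, hC3⟩ := hQ W K d hd
    obtain ⟨C', hC'⟩ := hSML V (V ⊕ W) H (Join H K v w) (2 * (C1 * (C2 + C3 + 1))) (max N2 N3)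
      (fun n => ex n K) h2H (by
        intro n hn
        have h1 := hcut n
        have h2 := hC1 n
        have h3 := hC2 n ((le_max_left _ _).trans hn)
        have h4 := hC3 n ((le_max_right _ _).trans hn)
        have h5 : exs n H c Set.univ + exs n K d Set.univ + n ≤
            (C2 + C3 + 1) * (ex n K + ex n H + n) := by
          nlinarith [Nat.zero_le (C2 * ex n K), Nat.zero_le (C2 * n), Nat.zero_le (C3 * ex n H),
            Nat.zero_le (C3 * n), Nat.zero_le (ex n K), Nat.zero_le (ex n H)]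
        calc ex n (Join H K v w) ≤ 2 * exs n (Join H K v w) (Sum.elim c d) Set.univ := h1
          _ ≤ 2 * (C1 * (exs n H c Set.univ + exs n K d Set.univ + n)) :=
              Nat.mul_le_mul_left 2 h2
          _ ≤ 2 * (C1 * ((C2 + C3 + 1) * (ex n K + ex n H + n))) :=
              Nat.mul_le_mul_left 2 (Nat.mul_le_mul_left C1 h5)
          _ = 2 * (C1 * (C2 + C3 + 1)) * (ex n K + ex n H + n) := by ring)
    refine ⟨C', fun n => ?_⟩
    have := hC' n
    rw [add_comm (ex n H)]
    exact this
  · intro hG V _ H c hc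
    refine hATM (Nat.card {a : V // c a = true}) ?_ V H c hc le_rfl
    intro V _ H c hc _ hA
    by_cases h3 : 3 ≤ Fintype.card V
    · have hne : Nonempty V := Fintype.card_pos_iff.1 (by omega)
      have hcon := hACN V H hne hA
      have hb := GLO_bip H c hc
      obtain ⟨v⟩ := hne
      obtain ⟨C, hC⟩ := hG V V H H hcon hcon hb hb h3 h3 v v
      have hJ : ∃ v, JB H v := by
        refine ⟨v, 2 * C, fun n => ?_⟩
        have := hC n
        calc ex n (Join H H v v) ≤ C * (ex n H + ex n H) := this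
          _ = 2 * C * ex n H := by ring
      exact ((hLOC V H c hcon hc h3).out 2 0).1 hJ
    · exact hTRV V H c hc (GLO_two H h3)

end Pool.Agent.GL
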